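import Pool.Agent.N984.QX.Stm2

/-! Leaf QX/CORE for helper984: the local obstruction (helper219). -/

set_option autoImplicit false

namespace Pool.Agent.N219.QX

open Finset Pool.Agent.N984.QX

open Classical in
private lemma W_eq (h0 : S_EV0) {n : ℕ} (ψ : (Fin n → ZMod 2) → ℂ) (hN : Normalised ψ)
    (X : Finset (Fin n)) :
    W ψ X = 1 + ∑ v ∈ (univ.filter (fun v : Vc n => ∀ i, i ∉ X → v i = 0)).erase 0,
      ‖ev ψ v‖ ^ 2 := by
  unfold W
  rw [← Finset.add_sum_erase _ _ (a := (0 : Vc n)) (by simp), h0 n ψ hN]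
  norm_num

theorem t_CORE (h0 : S_EV0) (h1 : S_WEV) (h2 : S_DUAL) : S_CORE := by
  intro n r c D S ψ hN hdis hS hn hB hI hG
  classical
  have hXc : (D ∪ S).card = D.card + (r + c + 1) := by rw [card_union_of_disjoint hdis, hS]
  have hcc : (D ∪ S).card + (D ∪ S)ᶜ.card = n := by rw [card_add_card_compl, Fintype.card_fin]
  have hSX : S ⊆ D ∪ S := subset_union_right
  have hDX : ∀ i ∈ D ∪ S, i ∉ S → i ∈ D := fun i hi hn => by
    rcases mem_union.mp hi with h | h
    · exact h
    · exact absurd h hn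
  generalize hX : D ∪ S = X at *
  have wone : ∀ Y, MaxMixed ψ Y → W ψ Y = 1 := by
    intro Y hY
    rw [W_eq h0 ψ hN Y, Finset.sum_eq_zero, add_zero]
    intro v hv
    rw [mem_erase, mem_filter] at hv
    rw [h1 n ψ Y hY v hv.2.2 hv.1]
    simp
  have WX : W ψ X = 2 ^ (c + 2) := by
    have e := h2 n ψ X
    rw [wone _ hG, mul_one] at e
    have e2 : X.card = Xᶜ.card + (c + 2) := by omega
    rw [e2, pow_add] at e
    exact mul_left_cancel₀ (by positivity) e
  have WXi : ∀ i ∈ S, W ψ (X.erase i) = 2 ^ c := by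
    intro i hi
    have hiX : i ∈ X := hSX hi
    have e := h2 n ψ (X.erase i)
    have hc : (X.erase i)ᶜ = insert i Xᶜ := by
      ext j
      simp only [mem_compl, mem_erase, mem_insert]
      tauto
    rw [hc, wone _ (hI i hi), mul_one] at e
    have c1 : (X.erase i).card = X.card - 1 := card_erase_of_mem hiX
    have c2 : (insert i Xᶜ).card = Xᶜ.card + 1 :=
      card_insert_of_notMem (by simpa using hiX)
    have e2 : (X.erase i).card = (insert i Xᶜ).card + c := by omega
    rw [e2, pow_add] at e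
    exact mul_left_cancel₀ (by positivity) e
  have hrew : ∀ i ∈ S, ∑ v ∈ (univ.filter (fun v : Vc n => ∀ j, j ∉ X.erase i → v j = 0)).erase 0,
      ‖ev ψ v‖ ^ 2 = ∑ v ∈ (univ.filter (fun v : Vc n => ∀ j, j ∉ X → v j = 0)).erase 0,
        (if v i = 0 then ‖ev ψ v‖ ^ 2 else 0) := by
    intro i hi
    rw [← Finset.sum_filter]
    apply Finset.sum_congr _ (fun _ _ => rfl)
    ext v
    simp only [mem_erase, mem_filter, mem_univ, true_and]
    constructor
    · rintro ⟨hv0, hv⟩
      refine ⟨⟨hv0, fun j hj => hv j (fun h => hj h.2)⟩, hv i (fun h => h.1 rfl)⟩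
    · rintro ⟨⟨hv0, hv⟩, hvi⟩
      refine ⟨hv0, fun j hj => ?_⟩
      by_cases hji : j = i
      · rw [hji]; exact hvi
      · exact hv j (fun h => hj ⟨hji, h⟩)
  have hsum : ∑ i ∈ S, (W ψ (X.erase i) - 1) ≤ c * (W ψ X - 1) := by
    have e1 : ∑ i ∈ S, (W ψ (X.erase i) - 1)
        = ∑ i ∈ S, ∑ v ∈ (univ.filter (fun v : Vc n => ∀ j, j ∉ X → v j = 0)).erase 0,
        (if v i = 0 then ‖ev ψ v‖ ^ 2 else 0) := by
      refine Finset.sum_congr rfl (fun i hi => ?_)
      rw [W_eq h0 ψ hN (X.erase i), add_sub_cancel_left, hrew i hi]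
    rw [e1, W_eq h0 ψ hN X, add_sub_cancel_left, Finset.sum_comm, Finset.mul_sum]
    apply Finset.sum_le_sum
    intro v hv
    simp only [mem_erase, mem_filter, mem_univ, true_and] at hv
    rw [← Finset.sum_filter, Finset.sum_const, nsmul_eq_mul]
    by_cases hz : ev ψ v = 0
    · rw [hz]; simp
    · apply mul_le_mul_of_nonneg_right _ (by positivity)
      have hcard : (S.filter (fun i => v i = 0)).card ≤ c := by
        by_contra hcon
        push Not at hcon
        have h3 := Finset.card_filter_add_card_filter_not (s := S) (fun i => v i = 0)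
        have h4 : (S.filter (fun i => ¬ v i = 0)).card ≤ r := by omega
        obtain ⟨B, hB1, hB2, hB3⟩ := Finset.exists_subsuperset_card_eq
          (Finset.filter_subset (fun i => ¬ v i = 0) S) h4 (by omega : r ≤ S.card)
        apply hz
        refine h1 n ψ (D ∪ B) (hB B hB2 hB3) v (fun i hi => ?_) hv.1
        rw [mem_union, not_or] at hi
        by_cases hiX : i ∈ X
        · have hiS : i ∈ S := by
            by_contra hns
            exact hi.1 (hDX i hiX hns)
          by_contra hvi
          exact hi.2 (hB1 (mem_filter.mpr ⟨hiS, hvi⟩))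
        · exact hv.2 i hiX
      exact_mod_cast hcard
  rw [WX, Finset.sum_congr rfl (fun i hi => by rw [WXi i hi]), Finset.sum_const, hS,
    nsmul_eq_mul] at hsum
  exact hsum

end Pool.Agent.N219.QX
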